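import Mathlib

/-!
# MP_b58a5b_nt : no uniform bound on irreducible decompositions of numerical semigroups

We answer Q1 negatively: for every `N` the numerical semigroup `{0} ∪ [m, ∞)` with `m` large is
not an intersection of at most `N` irreducible numerical semigroups.

Idea: if `T` is irreducible with Frobenius number `f`, then the gaps `x > f / 2` satisfy
`f - x ∈ T`.  Hence the gaps in a short window just below a large `m` lie in a residue class
`f mod g` with `g ∤ f`.  Crittenden and Vanden Eynden: `N` residue classes that cover `2 ^ N`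
consecutive integers cover all the integers, so also `0`, a contradiction.
-/

set_option autoImplicit false

open Finset

namespace Pool.Agent.Results.MP_b58a5b_nt.NoUniformBound

/-- A numerical semigroup: contains `0`, closed under addition, finite complement. -/
def IsNumericalSemigroup (S : Set ℕ) : Prop :=
  0 ∈ S ∧ (∀ a ∈ S, ∀ b ∈ S, a + b ∈ S) ∧ Sᶜ.Finite

/-- A numerical semigroup that is not an intersection of two strictly larger ones. -/
def IsIrreducible (S : Set ℕ) : Prop :=
  IsNumericalSemigroup S ∧ ¬ ∃ S₁ S₂ : Set ℕ, IsNumericalSemigroup S₁ ∧ IsNumericalSemigroup S₂ ∧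
    S ⊂ S₁ ∧ S ⊂ S₂ ∧ S = S₁ ∩ S₂

/-- Adding an element that is large enough keeps a numerical semigroup. -/
theorem insert_isNumericalSemigroup {T : Set ℕ} (hT : IsNumericalSemigroup T) {h : ℕ}
    (h2 : h + h ∈ T) (hs : ∀ s ∈ T, s ≠ 0 → h + s ∈ T) :
    IsNumericalSemigroup (insert h T) := by
  refine ⟨Set.mem_insert_of_mem _ hT.1, ?_, hT.2.2.subset ?_⟩
  · rintro a (rfl | ha) b (rfl | hb)
    · exact Set.mem_insert_of_mem _ h2
    · rcases Nat.eq_zero_or_pos b with h0 | h0
      · subst h0
        rw [add_zero]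
        exact Set.mem_insert _ _
      · exact Set.mem_insert_of_mem _ (hs b hb (by omega))
    · rcases Nat.eq_zero_or_pos a with h0 | h0
      · subst h0
        rw [zero_add]
        exact Set.mem_insert _ _
      · rw [add_comm]
        exact Set.mem_insert_of_mem _ (hs a ha (by omega))
    · exact Set.mem_insert_of_mem _ (hT.2.1 a ha b hb)
  · exact Set.compl_subset_compl.mpr (Set.subset_insert _ _)

/-- The (pseudo-)symmetry of irreducible numerical semigroups. -/
theorem sub_mem_of_irreducible {T : Set ℕ} (hT : IsIrreducible T) {f : ℕ} (hf : f ∉ T)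
    (hmax : ∀ y, f < y → y ∈ T) {x : ℕ} (hx : x ∉ T) (hx2 : 2 * x ≠ f) : f - x ∈ T := by
  classical
  by_contra hbad
  have hxf : x ≤ f := by
    by_contra hlt
    exact hx (hmax x (by omega))
  let P : ℕ → Prop := fun h => h ∉ T ∧ f - h ∉ T ∧ 2 * h ≠ f
  have hPx : P x := ⟨hx, hbad, hx2⟩
  set h := Nat.findGreatest P f with hh
  have hPh : P h := Nat.findGreatest_spec hxf hPx
  have hhf : h ≤ f := Nat.findGreatest_le f
  have hgreat : ∀ y, y ≤ f → P y → y ≤ h := fun y hy hPy => Nat.le_findGreatest hy hPy
  have h1 : f - h ≤ h := by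
    apply hgreat (f - h) (by omega)
    refine ⟨hPh.2.1, ?_, ?_⟩
    · rw [show f - (f - h) = h by omega]
      exact hPh.1
    · have := hPh.2.2
      omega
  have h2 : f < 2 * h := by
    have := hPh.2.2
    omega
  have hne : h ≠ f := by
    intro h0
    apply hPh.2.1
    rw [h0, Nat.sub_self]
    exact hT.1.1
  apply hT.2
  refine ⟨insert h T, insert f T, insert_isNumericalSemigroup hT.1 (hmax _ (by omega)) ?_,
    insert_isNumericalSemigroup hT.1 ?_ ?_, Set.ssubset_insert hPh.1, Set.ssubset_insert hf, ?_⟩
  · intro s hs hs0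
    by_contra hns
    have hle : h + s ≤ f := by
      by_contra hlt
      exact hns (hmax _ (by omega))
    have h3 : ¬ P (h + s) := by
      intro hP
      have := hgreat (h + s) hle hP
      omega
    apply h3
    refine ⟨hns, ?_, by omega⟩
    intro hmem
    apply hPh.2.1
    have h4 := hT.1.2.1 _ hmem _ hs
    rwa [show f - (h + s) + s = f - h by omega] at h4
  · have hf0 : f ≠ 0 := by
      rintro rfl
      exact hf hT.1.1
    exact hmax _ (by omega)
  · intro s _ hs0
    exact hmax _ (by omega)
  · ext y
    simp only [Set.mem_inter_iff, Set.mem_insert_iff]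
    constructor
    · intro hy
      exact ⟨Or.inr hy, Or.inr hy⟩
    · rintro ⟨h5 | hy, h6 | hy'⟩
      · exact absurd (h5.symm.trans h6) hne
      · exact hy'
      · exact hy
      · exact hy

/-- A sum of `n` exponentials that vanishes at `n` consecutive integers vanishes everywhere. -/
theorem exp_sum_zero {ι : Type} [DecidableEq ι] (s : Finset ι) :
    ∀ (c w : ι → ℂ), (∀ i ∈ s, w i ≠ 0) → ∀ x₀ : ℤ,
      (∀ j : ℕ, j < s.card → ∑ i ∈ s, c i * w i ^ (x₀ + j) = 0) →
      ∀ x : ℤ, ∑ i ∈ s, c i * w i ^ x = 0 := by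
  induction s using Finset.induction_on with
  | empty => intro c w _ x₀ _ x; simp
  | insert a s ha ih =>
    intro c w hw x₀ hzero
    have hwa : w a ≠ 0 := hw a (mem_insert_self _ _)
    have hws : ∀ i ∈ s, w i ≠ 0 := fun i hi => hw i (mem_insert_of_mem hi)
    obtain ⟨f, hf⟩ : ∃ f : ℤ → ℂ, f = fun x => ∑ i ∈ insert a s, c i * w i ^ x := ⟨_, rfl⟩
    have hg : ∀ x : ℤ, f (x + 1) - w a * f x = ∑ i ∈ s, (c i * (w i - w a)) * w i ^ x := by
      intro x
      simp only [hf]
      rw [sum_insert ha, sum_insert ha, mul_add, mul_sum, zpow_add_one₀ hwa]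
      have h1 : ∑ i ∈ s, c i * w i ^ (x + 1) = ∑ i ∈ s, c i * w i * w i ^ x := by
        apply sum_congr rfl
        intro i hi
        rw [zpow_add_one₀ (hws i hi)]
        ring
      have h2 : ∑ i ∈ s, (c i * (w i - w a)) * w i ^ x
          = ∑ i ∈ s, c i * w i * w i ^ x - ∑ i ∈ s, w a * (c i * w i ^ x) := by
        rw [← sum_sub_distrib]
        apply sum_congr rfl
        intro i _
        ring
      rw [h1, h2]
      ring
    have hgz := ih (fun i => c i * (w i - w a)) w hws x₀ (by
      intro j hj
      have h3 := hg (x₀ + j)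
      have hcard : (insert a s).card = s.card + 1 := card_insert_of_notMem ha
      have h4 : f (x₀ + j) = 0 := by
        rw [hf]
        exact hzero j (by omega)
      have h5 : f (x₀ + j + 1) = 0 := by
        have := hzero (j + 1) (by omega)
        simp only [hf]
        rw [← this]
        push_cast
        simp only [add_assoc]
      rw [h4, h5, mul_zero, sub_zero] at h3
      exact h3.symm)
    have hrec : ∀ x : ℤ, f (x + 1) = w a * f x := by
      intro x
      have := hg x
      rw [hgz x] at this
      exact sub_eq_zero.mp this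
    have h0 : f x₀ = 0 := by
      have := hzero 0 (by rw [card_insert_of_notMem ha]; omega)
      rw [hf]
      simpa using this
    have hup : ∀ n : ℕ, f (x₀ + n) = 0 := by
      intro n
      induction n with
      | zero => simpa using h0
      | succ n ihn =>
        push_cast
        rw [← add_assoc, hrec, ihn, mul_zero]
    have hdown : ∀ n : ℕ, f (x₀ - n) = 0 := by
      intro n
      induction n with
      | zero => simpa using h0
      | succ n ihn =>
        have h6 := hrec (x₀ - (n + 1 : ℕ))
        rw [show x₀ - ((n + 1 : ℕ) : ℤ) + 1 = x₀ - n by push_cast; ring, ihn] at h6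
        exact (mul_eq_zero.mp h6.symm).resolve_left hwa
    intro x
    suffices h7 : f x = 0 by
      rw [hf] at h7
      exact h7
    rcases le_total x₀ x with hx | hx
    · obtain ⟨n, hn⟩ := Int.eq_ofNat_of_zero_le (sub_nonneg.mpr hx)
      have := hup n
      rwa [show x₀ + (n : ℤ) = x by omega] at this
    · obtain ⟨n, hn⟩ := Int.eq_ofNat_of_zero_le (sub_nonneg.mpr hx)
      have := hdown n
      rwa [show x₀ - (n : ℤ) = x by omega] at this

/-- For each modulus `g` there is a nonzero `z` with `z ^ n = 1 ↔ g ∣ n`. -/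
theorem exists_root (g : ℕ) : ∃ z : ℂ, z ≠ 0 ∧ ∀ n : ℤ, z ^ n = 1 ↔ (g : ℤ) ∣ n := by
  rcases Nat.eq_zero_or_pos g with h0 | h0
  · subst h0
    refine ⟨2, two_ne_zero, fun n => ?_⟩
    rw [Nat.cast_zero, zero_dvd_iff]
    constructor
    · intro h
      have h1 : (2 : ℝ) ^ n = 1 := by
        have := congrArg norm h
        simpa using this
      rwa [zpow_eq_one_iff_right₀ (by norm_num) (by norm_num)] at h1
    · rintro rfl
      simp
  · have h := Complex.isPrimitiveRoot_exp g (by omega)
    exact ⟨_, h.ne_zero (by omega), fun n => h.zpow_eq_one_iff_dvd n⟩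

/-- Crittenden–Vanden Eynden: finitely many residue classes (modulus `0` allowed, meaning a
single integer) covering `2 ^ k` consecutive integers cover every integer. -/
theorem covering {ι : Type} [DecidableEq ι] (s : Finset ι) (g : ι → ℕ) (a : ι → ℤ) (x₀ : ℤ)
    (hcov : ∀ j : ℕ, j < 2 ^ s.card → ∃ i ∈ s, (g i : ℤ) ∣ x₀ + j - a i) (x : ℤ) :
    ∃ i ∈ s, (g i : ℤ) ∣ x - a i := by
  choose z hz0 hz using fun i => exists_root (g i)
  have hprod : ∀ x : ℤ, ∏ i ∈ s, (1 + -(z i ^ (x - a i))) =
      ∑ t ∈ s.powerset, (∏ i ∈ t, -(z i ^ (- a i))) * (∏ i ∈ t, z i) ^ x := by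
    intro x
    rw [prod_one_add]
    apply sum_congr rfl
    intro t _
    rw [← prod_zpow, ← prod_mul_distrib]
    apply prod_congr rfl
    intro i _
    rw [sub_eq_add_neg, zpow_add₀ (hz0 i)]
    ring
  have hiff : ∀ x : ℤ, ∏ i ∈ s, (1 + -(z i ^ (x - a i))) = 0 ↔ ∃ i ∈ s, (g i : ℤ) ∣ x - a i := by
    intro x
    rw [prod_eq_zero_iff]
    constructor
    · rintro ⟨i, hi, h⟩
      refine ⟨i, hi, (hz i _).mp ?_⟩
      rw [← sub_eq_add_neg] at h
      exact (sub_eq_zero.mp h).symm
    · rintro ⟨i, hi, h⟩
      refine ⟨i, hi, ?_⟩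
      rw [(hz i _).mpr h]
      ring
  rw [← hiff, hprod]
  apply exp_sum_zero s.powerset _ _ _ x₀
  · intro j hj
    rw [card_powerset] at hj
    rw [← hprod, hiff]
    exact hcov j hj
  · intro t _
    exact prod_ne_zero_iff.mpr fun i _ => hz0 i

/-- Q1 has a negative answer: for every `N` there is a numerical semigroup that is not an
intersection of at most `N` irreducible numerical semigroups. -/
theorem result : ∀ N : ℕ, ∃ S : Set ℕ, IsNumericalSemigroup S ∧
    ∀ k ≤ N, ∀ T : Fin k → Set ℕ, (∀ i, IsIrreducible (T i)) → S ≠ ⋂ i, T i := by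
  classical
  intro N
  set K := 2 ^ N with hK
  choose b hb using fun A : Finset ℕ => Nat.exists_mem_closure_of_ge (A : Set ℕ)
  set B := ((range K).powerset).sup b with hB
  set m := B + 2 * K + 1 with hm
  refine ⟨{x | x = 0 ∨ m ≤ x}, ⟨Or.inl rfl, ?_, ?_⟩, ?_⟩
  · rintro a (rfl | ha) c (rfl | hc)
    · exact Or.inl rfl
    · rw [zero_add]
      exact Or.inr hc
    · rw [add_zero]
      exact Or.inr ha
    · exact Or.inr (by omega)
  · apply (Set.finite_lt_nat m).subset
    intro x hx
    by_contra hlt
    exact hx (Or.inr (not_lt.mp hlt))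
  · intro k hk T hT hS
    have hK0 : 0 < K := by positivity
    have hsub : ∀ i, ∀ x, m ≤ x → x ∈ T i := by
      intro i x hx
      have h1 : x ∈ ⋂ i, T i := by
        rw [← hS]
        exact Or.inr hx
      exact Set.mem_iInter.mp h1 i
    -- the greatest gap
    let f : Fin k → ℕ := fun i => Nat.findGreatest (fun x => x ∉ T i) m
    have hfmax : ∀ i, ∀ y, f i < y → y ∈ T i := by
      intro i y hy
      by_contra hny
      have hym : y ≤ m := by
        by_contra hlt
        exact hny (hsub i y (by omega))
      have h9 : y ≤ f i := Nat.le_findGreatest (P := fun x => x ∉ T i) hym hny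
      omega
    have hfgap : ∀ i x, x ∉ T i → f i ∉ T i := by
      intro i x hx
      have hxm : x ≤ m := by
        by_contra hlt
        exact hx (hsub i x (by omega))
      exact Nat.findGreatest_spec (P := fun x => x ∉ T i) hxm hx
    have hxf : ∀ i x, x ∉ T i → x ≤ f i := by
      intro i x hx
      by_contra hlt
      exact hx (hfmax i x (by omega))
    let A : Fin k → Finset ℕ := fun i => (range K).filter (fun t => t ∈ T i)
    let g : Fin k → ℕ := fun i => Nat.setGcd (A i : Set ℕ)
    let s : Finset (Fin k) := univ.filter fun i => ∃ x, m - K ≤ x ∧ x ∉ T i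
    have hs : ∀ i ∈ s, ¬ (g i : ℤ) ∣ (f i : ℤ) := by
      intro i hi hdvd
      obtain ⟨x, hx1, hx2⟩ := (mem_filter.mp hi).2
      have hdvd' : g i ∣ f i := by exact_mod_cast hdvd
      have h1 : b (A i) ≤ B := Finset.le_sup (mem_powerset.mpr (filter_subset _ _))
      have h2 := hxf i x hx2
      have h3 := hb (A i) (f i) (by omega) hdvd'
      apply hfgap i x hx2
      have h4 : AddSubmonoid.closure (A i : Set ℕ) ≤
          ({ carrier := T i, zero_mem' := (hT i).1.1,
             add_mem' := fun {a} {c} ha hc => (hT i).1.2.1 a ha c hc } : AddSubmonoid ℕ) := by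
        rw [AddSubmonoid.closure_le]
        intro y hy
        exact (mem_filter.mp hy).2
      exact h4 h3
    have hcov : ∀ j : ℕ, j < 2 ^ s.card → ∃ i ∈ s, (g i : ℤ) ∣ ((m - K : ℕ) : ℤ) + j - f i := by
      intro j hj
      have hcard : s.card ≤ N := by
        have := card_le_univ s
        rw [Fintype.card_fin] at this
        omega
      have hjK : j < K := lt_of_lt_of_le hj (Nat.pow_le_pow_right (by norm_num) hcard)
      have h1 : (m - K + j) ∉ ⋂ i, T i := by
        rw [← hS]
        rintro (h | h) <;> omega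
      rw [Set.mem_iInter] at h1
      push Not at h1
      obtain ⟨i, hi⟩ := h1
      refine ⟨i, mem_filter.mpr ⟨mem_univ _, m - K + j, by omega, hi⟩, ?_⟩
      have h2 := hxf i _ hi
      have hfm : f i ≤ m - 1 := by
        by_contra hlt
        exact hfgap i _ hi (hsub i _ (by omega))
      have h3 := sub_mem_of_irreducible (hT i) (hfgap i _ hi) (hfmax i) hi (by omega)
      have h4 : f i - (m - K + j) ∈ A i := mem_filter.mpr ⟨mem_range.mpr (by omega), h3⟩
      have h5 : g i ∣ f i - (m - K + j) := Nat.setGcd_dvd_of_mem h4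
      have h6 : (g i : ℤ) ∣ ((f i - (m - K + j) : ℕ) : ℤ) := by exact_mod_cast h5
      have h7 : ((f i - (m - K + j) : ℕ) : ℤ) = -(((m - K : ℕ) : ℤ) + j - f i) := by
        rw [Nat.cast_sub h2, Nat.cast_add]
        ring
      rw [h7, dvd_neg] at h6
      exact h6
    obtain ⟨i, hi, hdvd⟩ := covering s g (fun i => (f i : ℤ)) _ hcov 0
    apply hs i hi
    rwa [zero_sub, dvd_neg] at hdvd

end Pool.Agent.Results.MP_b58a5b_nt.NoUniformBound
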